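import Mathlib

set_option autoImplicit false

namespace Pool.Agent.H744.FB

open Module

/-- `v` is a nonzero vector of `L` which is not a sum of two nonzero vectors of `L` with
nonnegative inner product. -/
def Irred {n : ℕ} (L : Submodule ℤ (EuclideanSpace ℝ (Fin n))) (v : EuclideanSpace ℝ (Fin n)) :
    Prop :=
  v ∈ L ∧ v ≠ 0 ∧ ∀ u ∈ L, ∀ w ∈ L, u + w = v → 0 ≤ inner ℝ u w → u = 0 ∨ w = 0

end Pool.Agent.H744.FB
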