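import Pool.Agent.H744.FB.Defs

set_option autoImplicit false

namespace Pool.Agent.H744.FB.NBASIS

open Module

/-- FB-BASIS. -/
theorem t_BASIS {n : ℕ} (L : Submodule ℤ (EuclideanSpace ℝ (Fin n)))
    (v : Fin n → EuclideanSpace ℝ (Fin n)) (hv : LinearIndependent ℝ v)
    (hL : Submodule.span ℤ (Set.range v) = L) :
    ∃ b : Module.Basis (Fin n) ℤ L, ∀ i, (b i : EuclideanSpace ℝ (Fin n)) = v i := by
  subst hL
  have h1 : LinearIndependent ℤ v := by
    apply hv.restrict_scalars
    intro a b hab
    simpa using hab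
  exact ⟨Module.Basis.span h1, fun i => congrArg Subtype.val (Module.Basis.span_apply h1 i)⟩

end Pool.Agent.H744.FB.NBASIS
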