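import Pool.Agent.H744.FB.Defs

set_option autoImplicit false

/-! An irreducible vector of a lattice is a facet vector of the Voronoi cell. -/

namespace Pool.Agent.H744.FB.NFACET

open Module Pool.Agent.H744.FB

theorem t_BALL {n : ℕ} (L : Submodule ℤ (EuclideanSpace ℝ (Fin n))) [DiscreteTopology L]
    (R : ℝ) : {x : EuclideanSpace ℝ (Fin n) | x ∈ L ∧ ‖x‖ ≤ R}.Finite := by
  have h1 : IsClosed ((L : Submodule ℤ (EuclideanSpace ℝ (Fin n))) :
      Set (EuclideanSpace ℝ (Fin n))) := by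
    change IsClosed (L.toAddSubgroup : Set (EuclideanSpace ℝ (Fin n)))
    have : DiscreteTopology L.toAddSubgroup := (inferInstance : DiscreteTopology L)
    exact AddSubgroup.isClosed_of_discrete
  have h2 : Bornology.IsBounded (Metric.closedBall (0 : EuclideanSpace ℝ (Fin n)) R) :=
    Metric.isBounded_closedBall
  refine (Metric.finite_isBounded_inter_isClosed (s := (L : Set (EuclideanSpace ℝ (Fin n))))
    DiscreteTopology.isDiscrete h2 h1).subset ?_
  rintro x ⟨hx, hx2⟩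
  exact ⟨by rwa [mem_closedBall_zero_iff], hx⟩

variable {n : ℕ}

/-- the set of the theorem -/
def SS (L : Submodule ℤ (EuclideanSpace ℝ (Fin n))) (v : EuclideanSpace ℝ (Fin n)) :
    Set (EuclideanSpace ℝ (Fin n)) :=
  {x : EuclideanSpace ℝ (Fin n) | ∀ w ∈ L, ‖x‖ ≤ ‖x - w‖ ∧ ‖x - v‖ ≤ ‖x - w‖}

theorem norm_le_iff (x w : EuclideanSpace ℝ (Fin n)) :
    ‖x‖ ≤ ‖x - w‖ ↔ 2 * inner ℝ x w ≤ ‖w‖ ^ 2 := by
  have h1 := norm_sub_sq_real x w
  constructor
  · intro h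
    have h2 : ‖x‖ ^ 2 ≤ ‖x - w‖ ^ 2 := by gcongr
    linarith
  · intro h
    have h2 : ‖x‖ ^ 2 ≤ ‖x - w‖ ^ 2 := by linarith
    exact le_of_sq_le_sq h2 (norm_nonneg _)

theorem inner_of_mem {L : Submodule ℤ (EuclideanSpace ℝ (Fin n))} {v : EuclideanSpace ℝ (Fin n)}
    (hv : Irred L v) {x : EuclideanSpace ℝ (Fin n)} (hx : x ∈ SS L v) :
    2 * inner ℝ x v = ‖v‖ ^ 2 := by
  have h1 := (norm_le_iff x v).1 (hx v hv.1).1
  have h2 := (hx 0 L.zero_mem).2
  rw [sub_zero] at h2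
  have h3 : ‖x - v‖ ^ 2 ≤ ‖x‖ ^ 2 := by gcongr
  have h4 := norm_sub_sq_real x v
  linarith

theorem strict {L : Submodule ℤ (EuclideanSpace ℝ (Fin n))} {v : EuclideanSpace ℝ (Fin n)}
    (hv : Irred L v) {w : EuclideanSpace ℝ (Fin n)} (hw : w ∈ L) (h0 : w ≠ 0) (h1 : w ≠ v) :
    inner ℝ v w < ‖w‖ ^ 2 := by
  by_contra h2
  push Not at h2
  have h3 : inner ℝ w (v - w) = inner ℝ v w - ‖w‖ ^ 2 := by
    rw [inner_sub_right, real_inner_self_eq_norm_sq, real_inner_comm]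
  rcases hv.2.2 w hw (v - w) (L.sub_mem hv.1 hw) (by abel) (by rw [h3]; linarith) with h | h
  · exact h0 h
  · exact h1 (sub_eq_zero.1 h).symm

theorem near (L : Submodule ℤ (EuclideanSpace ℝ (Fin n))) [DiscreteTopology L]
    (v : EuclideanSpace ℝ (Fin n)) (hv : Irred L v) :
    ∃ r : ℝ, 0 < r ∧ ∀ y : EuclideanSpace ℝ (Fin n), inner ℝ v y = 0 → ‖y‖ < r →
      (1 / 2 : ℝ) • v + y ∈ SS L v := by
  have hv0 : 0 < ‖v‖ := norm_pos_iff.2 hv.2.1
  let F : Set (EuclideanSpace ℝ (Fin n)) := {x | (x ∈ L ∧ ‖x‖ ≤ 2 * ‖v‖) ∧ x ≠ 0 ∧ x ≠ v}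
  have hF : F.Finite := (t_BALL L (2 * ‖v‖)).subset (fun x hx => hx.1)
  have h1 : ∀ᶠ y in nhds (0 : EuclideanSpace ℝ (Fin n)), ∀ w ∈ F,
      2 * inner ℝ ((1 / 2 : ℝ) • v + y) w < ‖w‖ ^ 2 := by
    rw [Filter.eventually_all_finite hF]
    intro w hw
    have hc : Continuous fun y : EuclideanSpace ℝ (Fin n) =>
        2 * inner ℝ ((1 / 2 : ℝ) • v + y) w := by fun_prop
    refine (hc.tendsto 0).eventually_lt_const ?_
    rw [add_zero, real_inner_smul_left]
    have := strict hv hw.1.1 hw.2.1 hw.2.2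
    linarith
  obtain ⟨r0, hr0, h2⟩ := Metric.eventually_nhds_iff.1 h1
  refine ⟨min r0 (‖v‖ / 2), lt_min hr0 (by linarith), fun y hy hyr => ?_⟩
  have hyr1 : ‖y‖ < r0 := lt_of_lt_of_le hyr (min_le_left _ _)
  have hyr2 : ‖y‖ < ‖v‖ / 2 := lt_of_lt_of_le hyr (min_le_right _ _)
  have h3 : inner ℝ ((1 / 2 : ℝ) • v + y) v = ‖v‖ ^ 2 / 2 := by
    rw [inner_add_left, real_inner_smul_left, real_inner_self_eq_norm_sq, real_inner_comm, hy]
    ring
  have h4 : ‖(1 / 2 : ℝ) • v + y - v‖ = ‖(1 / 2 : ℝ) • v + y‖ := by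
    have h5 := norm_sub_sq_real ((1 / 2 : ℝ) • v + y) v
    have h6 : ‖(1 / 2 : ℝ) • v + y - v‖ ^ 2 = ‖(1 / 2 : ℝ) • v + y‖ ^ 2 := by linarith
    exact (sq_eq_sq₀ (norm_nonneg _) (norm_nonneg _)).1 h6
  have h7 : ∀ w ∈ L, ‖(1 / 2 : ℝ) • v + y‖ ≤ ‖(1 / 2 : ℝ) • v + y - w‖ := by
    intro w hw
    rw [norm_le_iff]
    by_cases hw0 : w = 0
    · subst hw0
      simp
    by_cases hwv : w = v
    · subst hwv
      linarith
    by_cases hwb : ‖w‖ ≤ 2 * ‖v‖
    · exact (h2 (by rwa [dist_zero_right]) w ⟨⟨hw, hwb⟩, hw0, hwv⟩).le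
    · push Not at hwb
      have h8 := real_inner_le_norm ((1 / 2 : ℝ) • v + y) w
      have h9 : ‖(1 / 2 : ℝ) • v + y‖ ≤ ‖v‖ := by
        refine (norm_add_le _ _).trans ?_
        rw [norm_smul]
        norm_num
        linarith
      nlinarith [norm_nonneg w, norm_nonneg ((1 / 2 : ℝ) • v + y),
        mul_le_mul_of_nonneg_right h9 (norm_nonneg w)]
  intro w hw
  exact ⟨h7 w hw, h4.le.trans (h7 w hw)⟩

/-- FB-FACET. -/
theorem t_FACET {n : ℕ} (L : Submodule ℤ (EuclideanSpace ℝ (Fin n))) [DiscreteTopology L]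
    (v : EuclideanSpace ℝ (Fin n)) (hv : Irred L v) :
    Module.finrank ℝ
        (affineSpan ℝ {x : EuclideanSpace ℝ (Fin n) |
          ∀ w ∈ L, ‖x‖ ≤ ‖x - w‖ ∧ ‖x - v‖ ≤ ‖x - w‖}).direction = n - 1 := by
  change Module.finrank ℝ (affineSpan ℝ (SS L v)).direction = n - 1
  have h1 : (affineSpan ℝ (SS L v)).direction = (Submodule.span ℝ {v})ᗮ := by
    rw [direction_affineSpan]
    apply le_antisymm
    · rw [vectorSpan_def, Submodule.span_le]
      rintro z ⟨x, hx, x', hx', rfl⟩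
      rw [SetLike.mem_coe, Submodule.mem_orthogonal_singleton_iff_inner_left]
      have h2 := inner_of_mem hv hx
      have h3 := inner_of_mem hv hx'
      simp only [vsub_eq_sub]
      rw [inner_sub_left]
      linarith
    · intro y hy
      rw [Submodule.mem_orthogonal_singleton_iff_inner_right] at hy
      obtain ⟨r, hr, h2⟩ := near L v hv
      have hp : 0 < ‖y‖ + 1 := by positivity
      set t : ℝ := r / (2 * (‖y‖ + 1)) with ht
      have htp : 0 < t := by positivity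
      have h3 : (1 / 2 : ℝ) • v + t • y ∈ SS L v := by
        apply h2
        · rw [inner_smul_right, hy, mul_zero]
        · rw [norm_smul, Real.norm_eq_abs, abs_of_pos htp, ht, div_mul_eq_mul_div,
            div_lt_iff₀ (by positivity)]
          nlinarith [norm_nonneg y]
      have h4 : (1 / 2 : ℝ) • v + (0 : EuclideanSpace ℝ (Fin n)) ∈ SS L v := by
        apply h2
        · exact inner_zero_right _
        · rw [norm_zero]
          exact hr
      have h5 := vsub_mem_vectorSpan ℝ h3 h4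
      have h6 : ((1 / 2 : ℝ) • v + t • y) -ᵥ ((1 / 2 : ℝ) • v + (0 : EuclideanSpace ℝ (Fin n))) =
          t • y := by
        rw [vsub_eq_sub]
        abel
      rw [h6] at h5
      have h7 := (vectorSpan ℝ (SS L v)).smul_mem t⁻¹ h5
      rwa [smul_smul, inv_mul_cancel₀ htp.ne', one_smul] at h7
  rw [h1]
  have h2 := Submodule.finrank_add_finrank_orthogonal (Submodule.span ℝ {v})
  rw [finrank_span_singleton hv.2.1, finrank_euclideanSpace_fin] at h2
  omega

end Pool.Agent.H744.FB.NFACET
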