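import Pool.Agent.H744.FB.Defs

/-!
FB-MIN and FB-BALL (project FB of helper744): the elements of a discrete lattice in a ball are
finitely many, and a nonempty subset has an element of least norm.
-/

set_option autoImplicit false

namespace Pool.Agent.H744.FB.NMIN

open Module

/-- FB-BALL. -/
theorem t_BALL {n : ℕ} (L : Submodule ℤ (EuclideanSpace ℝ (Fin n))) [DiscreteTopology L]
    (R : ℝ) : {x : EuclideanSpace ℝ (Fin n) | x ∈ L ∧ ‖x‖ ≤ R}.Finite := by
  have hcl : IsClosed (L : Set (EuclideanSpace ℝ (Fin n))) := by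
    have hd : DiscreteTopology L.toAddSubgroup := (inferInstance : DiscreteTopology L)
    exact AddSubgroup.isClosed_of_discrete (H := L.toAddSubgroup)
  have hd : DiscreteTopology (L : Set (EuclideanSpace ℝ (Fin n))) :=
    (inferInstance : DiscreteTopology L)
  have h := Metric.finite_isBounded_inter_isClosed
    (K := Metric.closedBall (0 : EuclideanSpace ℝ (Fin n)) R) (s := (L : Set _))
    hd.isDiscrete Metric.isBounded_closedBall hcl
  refine h.subset ?_
  rintro x ⟨hx, hxR⟩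
  exact ⟨mem_closedBall_zero_iff.mpr hxR, hx⟩

/-- FB-MIN. A nonempty subset of a discrete subgroup of `ℝ^n` has an element of least norm. -/
theorem t_MIN {n : ℕ} (L : Submodule ℤ (EuclideanSpace ℝ (Fin n))) [DiscreteTopology L]
    (S : Set (EuclideanSpace ℝ (Fin n))) (hS : S ⊆ L) (hne : S.Nonempty) :
    ∃ x ∈ S, ∀ y ∈ S, ‖x‖ ≤ ‖y‖ := by
  obtain ⟨x0, hx0⟩ := hne
  have hfin : {x : EuclideanSpace ℝ (Fin n) | x ∈ S ∧ ‖x‖ ≤ ‖x0‖}.Finite :=
    (t_BALL L ‖x0‖).subset fun x hx => ⟨hS hx.1, hx.2⟩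
  obtain ⟨x, hx, hmin⟩ := Set.exists_min_image _ (fun x => ‖x‖) hfin ⟨x0, hx0, le_rfl⟩
  refine ⟨x, hx.1, fun y hy => ?_⟩
  rcases le_total ‖y‖ ‖x0‖ with h | h
  · exact hmin y ⟨hy, h⟩
  · exact hx.2.trans h

end Pool.Agent.H744.FB.NMIN
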