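import Pool.Agent.H744.FB.Defs

set_option autoImplicit false

namespace Pool.Agent.H744.FB.NROUND

open Module Finset

lemma round_one {n : ℕ} (y f : EuclideanSpace ℝ (Fin n)) (c : ℝ) :
    ∃ m : ℤ, ‖y + c • f - m • f‖ ^ 2 ≤ ‖y‖ ^ 2 + ‖f‖ ^ 2 / 4 := by
  have h0 := Int.fract_nonneg c
  have h1 := Int.fract_lt_one c
  have key : ∀ s : ℝ, ‖y + s • f‖ ^ 2 = ‖y‖ ^ 2 + 2 * s * inner ℝ y f + s ^ 2 * ‖f‖ ^ 2 := by
    intro s
    rw [norm_add_sq_real, inner_smul_right, norm_smul, mul_pow, Real.norm_eq_abs, sq_abs]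
    ring
  have e1 : y + c • f - ⌊c⌋ • f = y + Int.fract c • f := by
    rw [← Int.cast_smul_eq_zsmul ℝ, add_sub_assoc, ← sub_smul]
    rfl
  have e2 : y + c • f - (⌊c⌋ + 1) • f = y + (Int.fract c - 1) • f := by
    rw [← Int.cast_smul_eq_zsmul ℝ, add_sub_assoc, ← sub_smul]
    congr 2
    push_cast
    rw [Int.fract]
    ring
  by_contra hcon
  push Not at hcon
  have h2 := hcon ⌊c⌋
  have h3 := hcon (⌊c⌋ + 1)
  rw [e1, key] at h2
  rw [e2, key] at h3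
  set θ := Int.fract c
  have h4 : 0 ≤ ‖f‖ ^ 2 := by positivity
  have h5 : θ * (1 - θ) ≤ 1 / 4 := by nlinarith [sq_nonneg (θ - 1 / 2)]
  have h6 : θ * (1 - θ) * ‖f‖ ^ 2 ≤ 1 / 4 * ‖f‖ ^ 2 := mul_le_mul_of_nonneg_right h5 h4
  have h7 := mul_lt_mul_of_pos_left h2 (show 0 < 1 - θ by linarith)
  have h8 := mul_le_mul_of_nonneg_left h3.le h0
  nlinarith

/-- FB-ROUND. -/
theorem t_ROUND {n k : ℕ} (f : Fin k → EuclideanSpace ℝ (Fin n)) (y w : EuclideanSpace ℝ (Fin n))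
    (hw : w ∈ Submodule.span ℝ (Set.range f)) :
    ∃ z ∈ Submodule.span ℤ (Set.range f), ‖y + w - z‖ ^ 2 ≤ ‖y‖ ^ 2 + (∑ i, ‖f i‖ ^ 2) / 4 := by
  classical
  obtain ⟨c, rfl⟩ := (Submodule.mem_span_range_iff_exists_fun ℝ).1 hw
  have key : ∀ s : Finset (Fin k), ∃ z ∈ Submodule.span ℤ (Set.range f),
      ‖y + ∑ i ∈ s, c i • f i - z‖ ^ 2 ≤ ‖y‖ ^ 2 + (∑ i ∈ s, ‖f i‖ ^ 2) / 4 := by
    intro s
    induction s using Finset.induction_on with
    | empty => exact ⟨0, Submodule.zero_mem _, by simp⟩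
    | insert a s ha ih =>
      obtain ⟨z, hz, h1⟩ := ih
      obtain ⟨m, hm⟩ := round_one (y + ∑ i ∈ s, c i • f i - z) (f a) (c a)
      refine ⟨z + m • f a, Submodule.add_mem _ hz
        (Submodule.smul_mem _ m (Submodule.subset_span ⟨a, rfl⟩)), ?_⟩
      rw [Finset.sum_insert ha, Finset.sum_insert ha]
      have e1 : y + (c a • f a + ∑ i ∈ s, c i • f i) - (z + m • f a) =
          y + ∑ i ∈ s, c i • f i - z + c a • f a - m • f a := by abel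
      rw [e1]
      linarith
  exact key univ

end Pool.Agent.H744.FB.NROUND
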