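import Pool.Agent.H744.FB.Step
import Pool.Agent.H744.FB.PMIN
import Pool.Agent.H744.FB.PROUND
import Pool.Agent.H744.FB.PFACET
import Pool.Agent.H744.FB.PBASIS

set_option autoImplicit false
set_option maxHeartbeats 4000000

namespace Pool.Agent.H744.FB

open Module

theorem pMIN : P_MIN := fun L _ S hS hne => NMIN.t_MIN L S hS hne
theorem pBALL : P_BALL := fun L _ R => NMIN.t_BALL L R
theorem pROUND : P_ROUND := fun f y w hw => NROUND.t_ROUND f y w hw

variable {n : ℕ}

/-- Existence of a shortest vector outside a proper subspace. -/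
theorem exists_shortest (L : Submodule ℤ (EuclideanSpace ℝ (Fin n))) [DiscreteTopology L]
    (hspan : Submodule.span ℝ (L : Set (EuclideanSpace ℝ (Fin n))) = ⊤)
    (W : Submodule ℝ (EuclideanSpace ℝ (Fin n))) (hW : W ≠ ⊤) :
    ∃ f0 ∈ L, f0 ∉ W ∧ ∀ x ∈ L, x ∉ W → ‖f0‖ ≤ ‖x‖ := by
  obtain ⟨f0, ⟨hf0L, hf0W⟩, hmin⟩ := pMIN L {x | x ∈ L ∧ x ∉ W} (fun x hx => hx.1) (by
    by_contra hne
    rw [Set.not_nonempty_iff_eq_empty] at hne
    apply hW
    rw [eq_top_iff, ← hspan, Submodule.span_le]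
    intro x hx
    by_contra hxW
    have : x ∈ ({x | x ∈ L ∧ x ∉ W} : Set (EuclideanSpace ℝ (Fin n))) := ⟨hx, hxW⟩
    rw [hne] at this
    exact this)
  exact ⟨f0, hf0L, hf0W, fun x hx hxW => hmin x ⟨hx, hxW⟩⟩

/-- `f` attains the first `k` successive minima of `L`: `f i` is a shortest vector of `L` outside the
span of the previous ones. -/
def MinSys {k : ℕ} (L : Submodule ℤ (EuclideanSpace ℝ (Fin n)))
    (f : Fin k → EuclideanSpace ℝ (Fin n)) : Prop :=
  ∀ i, f i ∈ L ∧ f i ∉ Submodule.span ℝ (f '' {j | j < i}) ∧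
    ∀ x ∈ L, x ∉ Submodule.span ℝ (f '' {j | j < i}) → ‖f i‖ ≤ ‖x‖

theorem image_lt_last {k : ℕ} (f : Fin (k + 1) → EuclideanSpace ℝ (Fin n)) :
    f '' {j | j < Fin.last k} = Set.range (fun i : Fin k => f i.castSucc) := by
  ext x
  constructor
  · rintro ⟨j, hj, rfl⟩
    have hj' : j ≠ Fin.last k := ne_of_lt hj
    obtain ⟨i, rfl⟩ := Fin.exists_castSucc_eq.mpr hj'
    exact ⟨i, rfl⟩
  · rintro ⟨i, rfl⟩
    exact ⟨i.castSucc, Fin.castSucc_lt_last i, rfl⟩

theorem image_lt_cast {k : ℕ} (f : Fin (k + 1) → EuclideanSpace ℝ (Fin n)) (i : Fin k) :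
    f '' {j | j < i.castSucc} = (fun i : Fin k => f i.castSucc) '' {j | j < i} := by
  ext x
  constructor
  · rintro ⟨j, hj, rfl⟩
    have hj' : j ≠ Fin.last k := ne_of_lt (lt_trans hj (Fin.castSucc_lt_last i))
    obtain ⟨l, rfl⟩ := Fin.exists_castSucc_eq.mpr hj'
    exact ⟨l, by simpa using hj, rfl⟩
  · rintro ⟨l, hl, rfl⟩
    exact ⟨l.castSucc, by simpa using hl, rfl⟩

theorem MinSys.init {k : ℕ} {L : Submodule ℤ (EuclideanSpace ℝ (Fin n))}
    {f : Fin (k + 1) → EuclideanSpace ℝ (Fin n)} (h : MinSys L f) :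
    MinSys L (fun i : Fin k => f i.castSucc) := by
  intro i
  have := h i.castSucc
  rw [image_lt_cast] at this
  exact this

theorem MinSys.norm_le {k : ℕ} {L : Submodule ℤ (EuclideanSpace ℝ (Fin n))}
    {f : Fin k → EuclideanSpace ℝ (Fin n)} (h : MinSys L f) {i j : Fin k} (hij : i ≤ j) :
    ‖f i‖ ≤ ‖f j‖ := by
  refine (h i).2.2 (f j) (h j).1 fun hc => (h j).2.1 ?_
  refine Submodule.span_mono ?_ hc
  exact Set.image_mono fun l hl => lt_of_lt_of_le hl hij

theorem sum_lt_last {k : ℕ} (g : Fin (k + 1) → ℝ) :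
    ∑ j ∈ Finset.univ.filter (· < Fin.last k), g j = ∑ i : Fin k, g i.castSucc := by
  classical
  rw [Finset.sum_filter, Fin.sum_univ_castSucc]
  simp [Fin.castSucc_lt_last]

theorem sum_lt_cast {k : ℕ} (g : Fin (k + 1) → ℝ) (i : Fin k) :
    ∑ j ∈ Finset.univ.filter (· < i.castSucc), g j =
      ∑ j ∈ Finset.univ.filter (· < i), g j.castSucc := by
  classical
  rw [Finset.sum_filter, Finset.sum_filter, Fin.sum_univ_castSucc]
  have : ¬ (Fin.last k < i.castSucc) := by
    intro h; exact absurd (h.trans (Fin.castSucc_lt_last i)) (lt_irrefl _)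
  simp [this]

/-- The main induction. -/
theorem cl_of_minSys (L : Submodule ℤ (EuclideanSpace ℝ (Fin n))) [DiscreteTopology L] :
    ∀ (k : ℕ) (f : Fin k → EuclideanSpace ℝ (Fin n)), MinSys L f →
      (∀ i : Fin k, ∑ j ∈ Finset.univ.filter (· < i), ‖f j‖ ^ 2 < 7 * ‖f i‖ ^ 2 ∨
        (n = (i : ℕ) + 1 ∧ ∑ j ∈ Finset.univ.filter (· < i), ‖f j‖ ^ 2 < 68 / 9 * ‖f i‖ ^ 2)) →
      Cl L f := by
  intro k
  induction k with
  | zero => intro f _ _; exact cl_zero L f
  | succ k ih =>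
    intro f hf hS
    have h1 : Cl L (fun i : Fin k => f i.castSucc) := by
      refine ih _ hf.init fun i => ?_
      have h2 := hS i.castSucc
      rw [sum_lt_cast (fun j => ‖f j‖ ^ 2)] at h2
      exact h2
    have h3 := hS (Fin.last k)
    rw [sum_lt_last (fun j => ‖f j‖ ^ 2)] at h3
    have h4 := hf (Fin.last k)
    rw [image_lt_last] at h4
    have h5 := cl_step pMIN pBALL pROUND L k (fun i : Fin k => f i.castSucc)
      (fun i => (hf i.castSucc).1) h1 (f (Fin.last k)) h4.1 h4.2.1 h4.2.2 (by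
        simpa using h3)
    have h6 : (Fin.snoc (fun i : Fin k => f i.castSucc) (f (Fin.last k)) :
        Fin (k + 1) → EuclideanSpace ℝ (Fin n)) = f := Fin.snoc_init_self f
    rw [h6] at h5
    exact h5

/-- Existence of the first `k` successive minima vectors. -/
theorem exists_minSys (L : Submodule ℤ (EuclideanSpace ℝ (Fin n))) [DiscreteTopology L]
    (hspan : Submodule.span ℝ (L : Set (EuclideanSpace ℝ (Fin n))) = ⊤) :
    ∀ k ≤ n, ∃ f : Fin k → EuclideanSpace ℝ (Fin n), MinSys L f := by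
  intro k
  induction k with
  | zero => intro _; exact ⟨Fin.elim0, fun i => i.elim0⟩
  | succ k ih =>
    intro hk
    obtain ⟨f, hf⟩ := ih (by omega)
    have hW : Submodule.span ℝ (Set.range f) ≠ ⊤ := by
      intro h
      have h1 : finrank ℝ (Submodule.span ℝ (Set.range f)) ≤ Fintype.card (Fin k) :=
        finrank_range_le_card (R := ℝ) f
      rw [h, finrank_top, finrank_euclideanSpace, Fintype.card_fin, Fintype.card_fin] at h1
      omega
    obtain ⟨f0, h1, h2, h3⟩ := exists_shortest L hspan _ hW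
    refine ⟨Fin.snoc f f0, fun i => ?_⟩
    refine Fin.lastCases ?_ (fun i => ?_) i
    · rw [image_lt_last]
      simp only [Fin.snoc_last, Fin.snoc_castSucc]
      exact ⟨h1, h2, h3⟩
    · rw [image_lt_cast]
      simp only [Fin.snoc_castSucc]
      exact hf i

theorem sum_le_of_minSys {k : ℕ} {L : Submodule ℤ (EuclideanSpace ℝ (Fin n))}
    {f : Fin k → EuclideanSpace ℝ (Fin n)} (h : MinSys L f) (i : Fin k) :
    ∑ j ∈ Finset.univ.filter (· < i), ‖f j‖ ^ 2 ≤ (i : ℕ) * ‖f i‖ ^ 2 := by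
  have h1 : ∑ j ∈ Finset.univ.filter (· < i), ‖f j‖ ^ 2 ≤
      ∑ _j ∈ Finset.univ.filter (· < i), ‖f i‖ ^ 2 := by
    refine Finset.sum_le_sum fun j hj => ?_
    have : j < i := (Finset.mem_filter.mp hj).2
    exact pow_le_pow_left₀ (norm_nonneg _) (h.norm_le this.le) 2
  rw [Finset.sum_const, nsmul_eq_mul] at h1
  have h2 : (Finset.univ.filter (· < i)).card = (i : ℕ) := by
    have h3 : Finset.univ.filter (· < i) = Finset.Iio i := by ext x; simp
    rw [h3, Fin.card_Iio]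
  rw [h2] at h1
  exact h1

theorem MinSys.ne_zero {k : ℕ} {L : Submodule ℤ (EuclideanSpace ℝ (Fin n))}
    {f : Fin k → EuclideanSpace ℝ (Fin n)} (h : MinSys L f) (i : Fin k) : 0 < ‖f i‖ ^ 2 := by
  have : f i ≠ 0 := fun h0 => (h i).2.1 (h0 ▸ Submodule.zero_mem _)
  positivity

theorem cl_small (L : Submodule ℤ (EuclideanSpace ℝ (Fin n))) [DiscreteTopology L]
    {k : ℕ} (f : Fin k → EuclideanSpace ℝ (Fin n)) (h : MinSys L f)
    (hk : k ≤ 7 ∨ (k = 8 ∧ n = 8)) : Cl L f := by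
  refine cl_of_minSys L k f h fun i => ?_
  have h1 := sum_le_of_minSys h i
  have h2 := h.ne_zero i
  by_cases hi : (i : ℕ) ≤ 6
  · left
    have h3 : ((i : ℕ) : ℝ) ≤ 6 := by exact_mod_cast hi
    nlinarith
  · right
    have hi7 : (i : ℕ) = 7 := by omega
    have hn8 : n = 8 := by omega
    refine ⟨by omega, ?_⟩
    rw [hi7] at h1
    push_cast at h1
    linarith

/-- From the inductive claim for `n` vectors to a basis. -/
theorem basis_of_cl (L : Submodule ℤ (EuclideanSpace ℝ (Fin n)))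
    (f : Fin n → EuclideanSpace ℝ (Fin n)) (h : Cl L f) :
    ∃ b : Module.Basis (Fin n) ℤ L, ∀ i, Irred L (b i : EuclideanSpace ℝ (Fin n)) := by
  obtain ⟨v, hvli, hvirr, hvW, hLW⟩ := h
  have htop : Submodule.span ℝ (Set.range v) = ⊤ := by
    apply hvli.span_eq_top_of_card_eq_finrank'
    rw [finrank_euclideanSpace]
  have htop' : Submodule.span ℝ (Set.range f) = ⊤ := by
    rw [eq_top_iff, ← htop, Submodule.span_le]
    rintro _ ⟨i, rfl⟩; exact hvW i
  have hL : Submodule.span ℤ (Set.range v) = L := by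
    apply le_antisymm
    · rw [Submodule.span_le]; rintro _ ⟨i, rfl⟩; exact (hvirr i).1
    · intro x hx
      exact hLW x hx (htop' ▸ Submodule.mem_top)
  obtain ⟨b, hb⟩ := NBASIS.t_BASIS L v hvli hL
  exact ⟨b, fun i => by rw [hb i]; exact hvirr i⟩

end Pool.Agent.H744.FB
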