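import Pool.Agent.H744.FB.Defs

set_option autoImplicit false
set_option maxHeartbeats 4000000

namespace Pool.Agent.H744.FB

open Module

/-- The inductive claim: the lattice in the span of the `f i` has a basis `v` which consists of
irreducible vectors of `L`. -/
def Cl {n k : ℕ} (L : Submodule ℤ (EuclideanSpace ℝ (Fin n)))
    (f : Fin k → EuclideanSpace ℝ (Fin n)) : Prop :=
  ∃ v : Fin k → EuclideanSpace ℝ (Fin n),
    LinearIndependent ℝ v ∧ (∀ i, Irred L (v i)) ∧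
    (∀ i, v i ∈ Submodule.span ℝ (Set.range f)) ∧
    (∀ x ∈ L, x ∈ Submodule.span ℝ (Set.range f) → x ∈ Submodule.span ℤ (Set.range v))

def P_MIN : Prop := ∀ {n : ℕ} (L : Submodule ℤ (EuclideanSpace ℝ (Fin n))) [DiscreteTopology L]
    (S : Set (EuclideanSpace ℝ (Fin n))) (_ : S ⊆ L) (_ : S.Nonempty),
    ∃ x ∈ S, ∀ y ∈ S, ‖x‖ ≤ ‖y‖

def P_BALL : Prop := ∀ {n : ℕ} (L : Submodule ℤ (EuclideanSpace ℝ (Fin n))) [DiscreteTopology L]
    (R : ℝ), {x : EuclideanSpace ℝ (Fin n) | x ∈ L ∧ ‖x‖ ≤ R}.Finite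

def P_ROUND : Prop := ∀ {n k : ℕ} (f : Fin k → EuclideanSpace ℝ (Fin n))
    (y w : EuclideanSpace ℝ (Fin n)) (_ : w ∈ Submodule.span ℝ (Set.range f)),
    ∃ z ∈ Submodule.span ℤ (Set.range f), ‖y + w - z‖ ^ 2 ≤ ‖y‖ ^ 2 + (∑ i, ‖f i‖ ^ 2) / 4

theorem cl_zero {n : ℕ} (L : Submodule ℤ (EuclideanSpace ℝ (Fin n)))
    (f : Fin 0 → EuclideanSpace ℝ (Fin n)) : Cl L f := by
  refine ⟨f, linearIndependent_empty_type, fun i => i.elim0, fun i => i.elim0, ?_⟩
  intro x _ hx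
  have : (Set.range f) = ∅ := Set.range_eq_empty _
  rw [this, Submodule.span_empty, Submodule.mem_bot] at hx
  rw [hx]; exact Submodule.zero_mem _

theorem cl_step (hMIN : P_MIN) (hBALL : P_BALL) (hROUND : P_ROUND) {n : ℕ}
    (L : Submodule ℤ (EuclideanSpace ℝ (Fin n))) [DiscreteTopology L] (k : ℕ)
    (f : Fin k → EuclideanSpace ℝ (Fin n)) (hfL : ∀ i, f i ∈ L) (hC : Cl L f)
    (f0 : EuclideanSpace ℝ (Fin n)) (hf0L : f0 ∈ L)
    (hf0W : f0 ∉ Submodule.span ℝ (Set.range f))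
    (hf0min' : ∀ x ∈ L, x ∉ Submodule.span ℝ (Set.range f) → ‖f0‖ ≤ ‖x‖)
    (hS : ∑ i, ‖f i‖ ^ 2 < 7 * ‖f0‖ ^ 2 ∨ (n = k + 1 ∧ ∑ i, ‖f i‖ ^ 2 < 68 / 9 * ‖f0‖ ^ 2)) :
    Cl L (Fin.snoc f f0 : Fin (k + 1) → EuclideanSpace ℝ (Fin n)) := by
  classical
  obtain ⟨v, hvli, hvirr, hvW, hLW⟩ := hC
  set W : Submodule ℝ (EuclideanSpace ℝ (Fin n)) := Submodule.span ℝ (Set.range f) with hWdef
  set S : ℝ := ∑ i, ‖f i‖ ^ 2 with hSdef
  have hS0 : 0 ≤ S := Finset.sum_nonneg fun i _ => by positivity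
  -- the ℤ-span of f lies in L and in W
  have hzL : ∀ z ∈ Submodule.span ℤ (Set.range f), z ∈ L := by
    intro z hz
    have : Submodule.span ℤ (Set.range f) ≤ L := by
      rw [Submodule.span_le]; rintro _ ⟨i, rfl⟩; exact hfL i
    exact this hz
  have hzW : ∀ z ∈ Submodule.span ℤ (Set.range f), z ∈ W := by
    intro z hz
    exact Submodule.span_subset_span ℤ ℝ _ hz
  have hf0ne : f0 ≠ 0 := fun h => hf0W (h ▸ W.zero_mem)
  have hl0 : 0 < ‖f0‖ := norm_pos_iff.mpr hf0ne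
  -- orthogonal component
  obtain ⟨q, hq, p, hp, hfp⟩ := Submodule.exists_add_mem_mem_orthogonal (K := W) f0
  have hpW : ∀ w ∈ W, inner ℝ p w = 0 := by
    intro w hw
    rw [real_inner_comm]
    exact (Submodule.mem_orthogonal W p).mp hp w hw
  have hpne : p ≠ 0 := by
    intro h; rw [h, add_zero] at hfp; exact hf0W (hfp ▸ hq)
  have hpp : 0 < ‖p‖ ^ 2 := by positivity
  set c : EuclideanSpace ℝ (Fin n) → ℝ := fun x => inner ℝ p x / ‖p‖ ^ 2 with hc
  have cadd : ∀ x y, c (x + y) = c x + c y := by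
    intro x y; simp only [hc, inner_add_right, add_div]
  have csub : ∀ x y, c (x - y) = c x - c y := by
    intro x y; simp only [hc, inner_sub_right, sub_div]
  have csmul : ∀ (a : ℝ) x, c (a • x) = a * c x := by
    intro a x; simp only [hc, real_inner_smul_right, mul_div_assoc]
  have czero : ∀ w ∈ W, c w = 0 := by
    intro w hw; simp only [hc, hpW w hw, zero_div]
  have cp : c p = 1 := by
    simp only [hc, real_inner_self_eq_norm_sq]; exact div_self hpp.ne'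
  have cf0 : c f0 = 1 := by rw [hfp, cadd, czero q hq, cp, zero_add]
  have clow : ∀ x, c x ^ 2 * ‖p‖ ^ 2 ≤ ‖x‖ ^ 2 := by
    intro x
    have h1 : |inner ℝ p x| ≤ ‖p‖ * ‖x‖ := abs_real_inner_le_norm p x
    have h2 : (inner ℝ p x) ^ 2 ≤ ‖p‖ ^ 2 * ‖x‖ ^ 2 := by
      have := sq_le_sq' (by linarith [neg_le_of_abs_le h1]) (le_of_abs_le h1)
      linarith [mul_pow ‖p‖ ‖x‖ 2]
    have h3 : c x ^ 2 * ‖p‖ ^ 2 = (inner ℝ p x) ^ 2 / ‖p‖ ^ 2 := by
      simp only [hc]; field_simp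
    rw [h3, div_le_iff₀ hpp]; linarith
  have hpf : ‖p‖ ^ 2 ≤ ‖f0‖ ^ 2 := by
    have := clow f0; rw [cf0] at this; linarith
  -- the new span
  set f' : Fin (k + 1) → EuclideanSpace ℝ (Fin n) := Fin.snoc f f0 with hf'
  set W' : Submodule ℝ (EuclideanSpace ℝ (Fin n)) := Submodule.span ℝ (Set.range f') with hW'
  have hf'last : f' (Fin.last k) = f0 := by simp [hf']
  have hf'cast : ∀ i : Fin k, f' i.castSucc = f i := by intro i; simp [hf']
  have hWW' : W ≤ W' := by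
    rw [hWdef, Submodule.span_le]; rintro _ ⟨i, rfl⟩
    exact Submodule.subset_span ⟨i.castSucc, hf'cast i⟩
  have hf0W' : f0 ∈ W' := Submodule.subset_span ⟨Fin.last k, hf'last⟩
  have hdec : ∀ x ∈ W', x - c x • p ∈ W := by
    intro x hx
    rw [hW'] at hx
    induction hx using Submodule.span_induction with
    | mem y hy =>
      obtain ⟨i, rfl⟩ := hy
      refine Fin.lastCases ?_ (fun i => ?_) i
      · rw [hf'last, cf0, one_smul, hfp, add_sub_cancel_right]; exact hq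
      · rw [hf'cast]
        have : f i ∈ W := Submodule.subset_span ⟨i, rfl⟩
        rw [czero _ this, zero_smul, sub_zero]; exact this
    | zero => rw [czero 0 W.zero_mem, zero_smul, sub_zero]; exact W.zero_mem
    | add y z _ _ hy hz =>
      have : y + z - c (y + z) • p = (y - c y • p) + (z - c z • p) := by
        rw [cadd, add_smul]; abel
      rw [this]; exact W.add_mem hy hz
    | smul a y _ hy =>
      have : a • y - c (a • y) • p = a • (y - c y • p) := by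
        rw [csmul, smul_sub, smul_smul]
      rw [this]; exact W.smul_mem a hy
  have hWc : ∀ x ∈ W', c x = 0 → x ∈ W := by
    intro x hx h0; have := hdec x hx; rw [h0, zero_smul, sub_zero] at this; exact this
  -- reduction
  have hred : ∀ x ∈ L, x ∈ W' → ∃ x' ∈ L, x' ∈ W' ∧ c x' = c x ∧
      ‖x'‖ ^ 2 ≤ c x ^ 2 * ‖p‖ ^ 2 + S / 4 := by
    intro x hxL hxW
    obtain ⟨z, hz, hzb⟩ := hROUND f (c x • p) (x - c x • p) (hdec x hxW)
    refine ⟨x - z, L.sub_mem hxL (hzL z hz), W'.sub_mem hxW (hWW' (hzW z hz)), ?_, ?_⟩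
    · rw [csub, czero z (hzW z hz), sub_zero]
    · have h1 : c x • p + (x - c x • p) - z = x - z := by abel
      rw [h1, norm_smul, mul_pow, Real.norm_eq_abs, sq_abs] at hzb
      linarith
  -- least positive value of c
  set B : ℝ := ‖p‖ ^ 2 + S / 4 + ‖f0‖ ^ 2 with hB
  set T : Set (EuclideanSpace ℝ (Fin n)) := {x | (x ∈ L ∧ ‖x‖ ≤ Real.sqrt B) ∧ x ∈ W' ∧ 0 < c x}
    with hT
  have hTfin : T.Finite := (hBALL L (Real.sqrt B)).subset fun x hx => hx.1
  have hTne : T.Nonempty := by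
    refine ⟨f0, ⟨hf0L, ?_⟩, hf0W', by rw [cf0]; exact one_pos⟩
    apply Real.le_sqrt_of_sq_le
    have h0 : 0 ≤ ‖p‖ ^ 2 := sq_nonneg _
    rw [hB]; linarith
  obtain ⟨g, hgT, hgmin⟩ := Set.exists_min_image T c hTfin hTne
  obtain ⟨⟨hgL, hgB⟩, hgW', hg0⟩ := hgT
  set c0 : ℝ := c g with hc0
  have hc01 : c0 ≤ 1 := by
    rw [← cf0]
    refine hgmin f0 ⟨⟨hf0L, ?_⟩, hf0W', by rw [cf0]; exact one_pos⟩
    apply Real.le_sqrt_of_sq_le
    have h0 : 0 ≤ ‖p‖ ^ 2 := sq_nonneg _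
    rw [hB]; linarith
  have hcmin : ∀ x ∈ L, x ∈ W' → 0 < c x → c0 ≤ c x := by
    intro x hxL hxW hx0
    by_contra hlt
    push Not at hlt
    obtain ⟨x', hx'L, hx'W, hx'c, hx'b⟩ := hred x hxL hxW
    have h1 : c x ^ 2 * ‖p‖ ^ 2 ≤ ‖p‖ ^ 2 := by
      have h11 : c x ≤ 1 := hlt.le.trans hc01
      have h12 : c x ^ 2 ≤ 1 := pow_le_one₀ hx0.le h11
      calc c x ^ 2 * ‖p‖ ^ 2 ≤ 1 * ‖p‖ ^ 2 := mul_le_mul_of_nonneg_right h12 hpp.le
        _ = ‖p‖ ^ 2 := one_mul _
    have h2 : x' ∈ T := by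
      refine ⟨⟨hx'L, ?_⟩, hx'W, by rw [hx'c]; exact hx0⟩
      apply Real.le_sqrt_of_sq_le
      have h0 : 0 ≤ ‖f0‖ ^ 2 := sq_nonneg _
      rw [hB]; linarith
    have h3 := hgmin x' h2
    rw [hx'c] at h3
    linarith
  -- the shortest vector with c = c0
  obtain ⟨v0, ⟨hv0L, hv0W', hv0c⟩, hv0min⟩ := hMIN L {x | x ∈ L ∧ x ∈ W' ∧ c x = c0}
    (fun x hx => hx.1) ⟨g, hgL, hgW', rfl⟩
  simp only [Set.mem_ofPred_eq] at hv0min
  have hint : ∀ x ∈ L, x ∈ W' → ∃ m : ℤ, c x = m * c0 := by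
    intro x hxL hxW
    refine ⟨⌊c x / c0⌋, ?_⟩
    set m : ℤ := ⌊c x / c0⌋ with hm
    have h1 : (m : ℝ) * c0 ≤ c x := by
      have := Int.floor_le (c x / c0)
      rw [le_div_iff₀ hg0] at this; exact this
    have h2 : c x < (m + 1) * c0 := by
      have := Int.lt_floor_add_one (c x / c0)
      rw [div_lt_iff₀ hg0] at this; exact this
    by_contra hne
    have hmL : (m : ℝ) • v0 ∈ L := by
      have : (m : ℝ) • v0 = m • v0 := by exact Int.cast_smul_eq_zsmul ℝ m v0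
      rw [this]; exact L.smul_mem m hv0L
    have hcc : c (x - (m : ℝ) • v0) = c x - m * c0 := by rw [csub, csmul, hv0c]
    have h3 := hcmin (x - (m : ℝ) • v0) (L.sub_mem hxL hmL)
      (W'.sub_mem hxW (W'.smul_mem _ hv0W')) (by
        rw [hcc]; exact sub_pos.mpr (lt_of_le_of_ne h1 (Ne.symm hne)))
    rw [hcc] at h3
    linarith
  have hv0b : ‖v0‖ ^ 2 ≤ c0 ^ 2 * ‖p‖ ^ 2 + S / 4 := by
    obtain ⟨x', hx'L, hx'W, hx'c, hx'b⟩ := hred v0 hv0L hv0W'
    have h1 := hv0min x' ⟨hx'L, hx'W, by rw [hx'c, hv0c]⟩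
    have h2 : ‖v0‖ ^ 2 ≤ ‖x'‖ ^ 2 := pow_le_pow_left₀ (norm_nonneg _) h1 2
    rw [hv0c] at hx'b
    linarith
  have hv0W : v0 ∉ W := by
    intro h; have := czero v0 h; rw [hv0c] at this; exact hg0.ne' this
  have hv0ne : v0 ≠ 0 := fun h => hv0W (h ▸ W.zero_mem)
  -- new v
  set v' : Fin (k + 1) → EuclideanSpace ℝ (Fin n) := Fin.snoc v v0 with hv'
  have hv'last : v' (Fin.last k) = v0 := by simp [hv']
  have hv'cast : ∀ i : Fin k, v' i.castSucc = v i := by intro i; simp [hv']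
  have hvspan : Submodule.span ℝ (Set.range v) ≤ W := by
    rw [Submodule.span_le]; rintro _ ⟨i, rfl⟩; exact hvW i
  have hv'li : LinearIndependent ℝ v' := by
    rw [hv', linearIndependent_finSnoc]
    exact ⟨hvli, fun h => hv0W (hvspan h)⟩
  have hv'W' : ∀ i, v' i ∈ W' := by
    intro i
    refine Fin.lastCases ?_ (fun i => ?_) i
    · rw [hv'last]; exact hv0W'
    · rw [hv'cast]; exact hWW' (hvW i)
  have hout' : ∀ x ∈ L, x ∉ W → ‖f0‖ ≤ ‖x‖ := hf0min'
  have hirr : Irred L v0 := by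
    refine ⟨hv0L, hv0ne, ?_⟩
    intro u hu w hw huw hinn
    by_contra hcon
    push Not at hcon
    obtain ⟨hune, hwne⟩ := hcon
    have hnorm : ‖u‖ ^ 2 + ‖w‖ ^ 2 ≤ ‖v0‖ ^ 2 := by
      rw [← huw, norm_add_sq_real]; linarith
    have hupos : 0 < ‖u‖ ^ 2 := by positivity
    have hwpos : 0 < ‖w‖ ^ 2 := by positivity
    have hvu : ¬ ‖v0‖ ≤ ‖u‖ := by
      intro h
      have : ‖v0‖ ^ 2 ≤ ‖u‖ ^ 2 := pow_le_pow_left₀ (norm_nonneg _) h 2
      linarith
    have hvw : ¬ ‖v0‖ ≤ ‖w‖ := by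
      intro h
      have : ‖v0‖ ^ 2 ≤ ‖w‖ ^ 2 := pow_le_pow_left₀ (norm_nonneg _) h 2
      linarith
    by_cases huW : u ∈ W'
    · have hwW : w ∈ W' := by
        have : w = v0 - u := by rw [← huw]; abel
        rw [this]; exact W'.sub_mem hv0W' huW
      obtain ⟨a, ha⟩ := hint u hu huW
      obtain ⟨b, hb⟩ := hint w hw hwW
      have hab : a + b = 1 := by
        have h1 : c u + c w = c0 := by rw [← cadd, huw, hv0c]
        rw [ha, hb, ← add_mul] at h1
        have h2 : ((a : ℝ) + b) = 1 := by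
          have := mul_right_cancel₀ hg0.ne' (h1.trans (one_mul c0).symm)
          exact this
        exact_mod_cast h2
      have hne1 : b ≠ 1 := by
        intro h; apply hvw
        refine hv0min w ⟨hw, hwW, ?_⟩
        rw [hb, h]; push_cast; ring
      have hne2 : a ≠ 1 := by
        intro h; apply hvu
        refine hv0min u ⟨hu, huW, ?_⟩
        rw [ha, h]; push_cast; ring
      have hne3 : b ≠ -1 := by
        intro h; apply hvw
        have := hv0min (-w) ⟨L.neg_mem hw, W'.neg_mem hwW, by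
          have : c (-w) = - c w := by
            have := csmul (-1) w
            rw [neg_one_smul] at this; linarith
          rw [this, hb, h]; push_cast; ring⟩
        rwa [norm_neg] at this
      have hne4 : a ≠ -1 := by
        intro h; apply hvu
        have := hv0min (-u) ⟨L.neg_mem hu, W'.neg_mem huW, by
          have : c (-u) = - c u := by
            have := csmul (-1) u
            rw [neg_one_smul] at this; linarith
          rw [this, ha, h]; push_cast; ring⟩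
        rwa [norm_neg] at this
      have hcase : (3 ≤ a ∧ b ≤ -2) ∨ (3 ≤ b ∧ a ≤ -2) := by omega
      have huW0 : u ∉ W := by
        intro h; have h1 := czero u h; rw [ha] at h1
        rcases mul_eq_zero.mp h1 with h2 | h2
        · have : a = 0 := by exact_mod_cast h2
          omega
        · exact hg0.ne' h2
      have hwW0 : w ∉ W := by
        intro h; have h1 := czero w h; rw [hb] at h1
        rcases mul_eq_zero.mp h1 with h2 | h2
        · have : b = 0 := by exact_mod_cast h2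
          omega
        · exact hg0.ne' h2
      have hu1 : ‖f0‖ ^ 2 ≤ ‖u‖ ^ 2 := pow_le_pow_left₀ (norm_nonneg _) (hout' u hu huW0) 2
      have hw1 : ‖f0‖ ^ 2 ≤ ‖w‖ ^ 2 := pow_le_pow_left₀ (norm_nonneg _) (hout' w hw hwW0) 2
      have hS' : S < 68 / 9 * ‖f0‖ ^ 2 := by
        have h0 : 0 < ‖f0‖ ^ 2 := by positivity
        rcases hS with h | ⟨_, h⟩
        · linarith
        · exact h
      have key : ∀ (m : ℤ), 3 ≤ m → ∀ x : EuclideanSpace ℝ (Fin n), c x = m * c0 →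
          9 * (c0 ^ 2 * ‖p‖ ^ 2) ≤ ‖x‖ ^ 2 := by
        intro m hm x hx
        have h4 := clow x
        rw [hx] at h4
        have h5 : (3 : ℝ) ≤ m := by exact_mod_cast hm
        have h6 : (9 : ℝ) ≤ (m : ℝ) ^ 2 := by nlinarith
        have h7 : ((m : ℝ) * c0) ^ 2 * ‖p‖ ^ 2 = (m : ℝ) ^ 2 * (c0 ^ 2 * ‖p‖ ^ 2) := by ring
        have h8 : 9 * (c0 ^ 2 * ‖p‖ ^ 2) ≤ (m : ℝ) ^ 2 * (c0 ^ 2 * ‖p‖ ^ 2) :=
          mul_le_mul_of_nonneg_right h6 (by positivity)
        linarith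
      have hmax : 9 * (c0 ^ 2 * ‖p‖ ^ 2) ≤ ‖u‖ ^ 2 ∨ 9 * (c0 ^ 2 * ‖p‖ ^ 2) ≤ ‖w‖ ^ 2 := by
        rcases hcase with ⟨h3, _⟩ | ⟨h3, _⟩
        · exact Or.inl (key a h3 u ha)
        · exact Or.inr (key b h3 w hb)
      generalize c0 ^ 2 * ‖p‖ ^ 2 = t at hmax hv0b
      rcases hmax with h9 | h9 <;> linarith
    · have hwW : w ∉ W' := by
        intro h; apply huW
        have : u = v0 - w := by rw [← huw]; abel
        rw [this]; exact W'.sub_mem hv0W' h
      have hu1 : ‖f0‖ ^ 2 ≤ ‖u‖ ^ 2 :=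
        pow_le_pow_left₀ (norm_nonneg _) (hout' u hu fun h => huW (hWW' h)) 2
      have hw1 : ‖f0‖ ^ 2 ≤ ‖w‖ ^ 2 :=
        pow_le_pow_left₀ (norm_nonneg _) (hout' w hw fun h => hwW (hWW' h)) 2
      have hS' : S < 7 * ‖f0‖ ^ 2 := by
        rcases hS with h | ⟨h, _⟩
        · exact h
        · exfalso; apply huW
          have htop : Submodule.span ℝ (Set.range v') = ⊤ := by
            apply hv'li.span_eq_top_of_card_eq_finrank'
            rw [finrank_euclideanSpace, Fintype.card_fin, Fintype.card_fin, h]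
          have : Submodule.span ℝ (Set.range v') ≤ W' := by
            rw [Submodule.span_le]; rintro _ ⟨i, rfl⟩; exact hv'W' i
          exact this (htop ▸ Submodule.mem_top)
      obtain ⟨m, hm⟩ := hint f0 hf0L hf0W'
      rw [cf0] at hm
      have hmpos : 0 < m := by
        by_contra h
        push Not at h
        have : (m : ℝ) ≤ 0 := by exact_mod_cast h
        nlinarith
      have hl2 : 0 < ‖f0‖ ^ 2 := by positivity
      by_cases hm1 : m = 1
      · have hc1 : c0 = 1 := by rw [hm1] at hm; push_cast at hm; linarith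
        have := hv0min f0 ⟨hf0L, hf0W', by rw [cf0, hc1]⟩
        have h2 : ‖v0‖ ^ 2 ≤ ‖f0‖ ^ 2 := pow_le_pow_left₀ (norm_nonneg _) this 2
        linarith
      · have hm2 : (2 : ℝ) ≤ m := by
          have : (2 : ℤ) ≤ m := by omega
          exact_mod_cast this
        have hc2 : c0 ≤ 1 / 2 := by nlinarith
        have hc3 : c0 ^ 2 ≤ 1 / 4 := by nlinarith
        have h4 : c0 ^ 2 * ‖p‖ ^ 2 ≤ 1 / 4 * ‖f0‖ ^ 2 := by
          calc c0 ^ 2 * ‖p‖ ^ 2 ≤ 1 / 4 * ‖p‖ ^ 2 := mul_le_mul_of_nonneg_right hc3 hpp.le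
            _ ≤ 1 / 4 * ‖f0‖ ^ 2 := by linarith
        linarith
  refine ⟨v', hv'li, ?_, hv'W', ?_⟩
  · intro i
    refine Fin.lastCases ?_ (fun i => ?_) i
    · rw [hv'last]; exact hirr
    · rw [hv'cast]; exact hvirr i
  · intro x hxL hxW
    obtain ⟨m, hm⟩ := hint x hxL hxW
    have hmv : (m : ℝ) • v0 = m • v0 := Int.cast_smul_eq_zsmul ℝ m v0
    have h1 : x - (m : ℝ) • v0 ∈ W := by
      apply hWc _ (W'.sub_mem hxW (W'.smul_mem _ hv0W'))
      rw [csub, csmul, hv0c, hm, sub_self]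
    have h2 : x - (m : ℝ) • v0 ∈ L := by
      rw [hmv]; exact L.sub_mem hxL (L.smul_mem m hv0L)
    have h3 := hLW _ h2 h1
    have h4 : Submodule.span ℤ (Set.range v) ≤ Submodule.span ℤ (Set.range v') := by
      rw [Submodule.span_le]; rintro _ ⟨i, rfl⟩
      exact Submodule.subset_span ⟨i.castSucc, hv'cast i⟩
    have h5 : v0 ∈ Submodule.span ℤ (Set.range v') :=
      Submodule.subset_span ⟨Fin.last k, hv'last⟩
    have h6 : x = (x - (m : ℝ) • v0) + m • v0 := by rw [hmv]; abel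
    rw [h6]
    exact Submodule.add_mem _ (h4 h3) (Submodule.smul_mem _ m h5)

end Pool.Agent.H744.FB
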